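import Pool.Agent.Y223.G.Stm14
import Pool.Agent.Y356.H.Ecs

/-!
# Stability of the weighted homogeneous coordinate algebra, weight `3` of the prime
-/

set_option autoImplicit false

namespace Pool.Agent.Y236.H.EC2S

open Pool.Agent.Y223.G Pool.Agent.Y356.H.ECS

theorem t_EC2S : S_EC2S := by
  intro k O K Ω _ _ _ _ _ _ _ _ σ t hσ 𝔓 𝔓' h𝔓 z hz2 hz l B d Φ hΦ f hf
  set R' := RW k 𝔓' 3 (WE l B) z d Φ with hR'
  have hT : hm (-1) (1 : K) ∈ R' := Algebra.subset_adjoin (Or.inl (Or.inl (Or.inl rfl)))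
  have hO : ∀ o : O, hm 0 (algebraMap O K o) ∈ R' := fun o =>
    Algebra.subset_adjoin (Or.inl (Or.inr ⟨o, rfl⟩))
  have hTn : ∀ n : ℕ, hm (-(n : ℤ)) (1 : K) ∈ (R' : Set (LP K)) := by
    intro n
    have h := pow_mem hT n
    rw [hm_pow, one_pow] at h
    have e : ((n : ℤ) * -1) = -(n : ℤ) := by ring
    rwa [e] at h
  have hmul : ∀ f ∈ (R' : Set (LP K)), ∀ g ∈ (R' : Set (LP K)), f * g ∈ (R' : Set (LP K)) :=
    fun f hf g hg => R'.mul_mem hf hg
  have h1 : (1 : LP K) ∈ (R' : Set (LP K)) := R'.one_mem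
  unfold RW at hf
  induction hf using Algebra.adjoin_induction with
  | mem f hf =>
    rcases hf with ((hf | ⟨a, ha, rfl⟩) | ⟨o, rfl⟩) | ⟨ω, a, ha, rfl⟩
    · rw [Set.mem_singleton_iff] at hf
      subst hf
      rw [tl_hm, map_one]
      exact hT
    · rw [tl_hm, hσ]
      exact Algebra.subset_adjoin (Or.inl (Or.inl (Or.inr ⟨_, h𝔓 a ha, rfl⟩)))
    · rw [tl_hm, hσ]
      exact hO _
    · rw [tl_hm, map_div₀, hΦ, map_prod]
      simp only [map_pow]
      have key : hm ((∑ j, WE l B ω j * a j : ℕ) : ℤ) (∏ j, σ (z ω j) ^ a j) ∈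
          Pn (R' : Set (LP K)) (WE l B ω) (z ω) d := by
        rw [← prod_hm, ← ha]
        refine Pn_prod hmul h1 _ _ ?_ _
        obtain ⟨u, r, s, v, hx, hy⟩ := hz ω
        have hW1 : WE l B ω 1 = 0 := by
          unfold WE
          split_ifs
          · rfl
          · rfl
        have hW02 : WE l B ω 0 ≤ WE l B ω 2 := by
          unfold WE
          split_ifs
          · show l ≤ 3 * l
            omega
          · exact le_rfl
        intro j
        have hc : j = 0 ∨ j = 1 ∨ j = 2 := by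
          fin_cases j <;> simp
        rcases hc with rfl | rfl | rfl
        · rw [hx, hm_add]
          refine add_mem (Pn_var hmul hTn (hO _) _ 0 le_rfl) ?_
          have := Pn_var (z := z ω) hmul hTn (hO r) _ 2 hW02
          rwa [hz2, mul_one] at this
        · rw [hy, hm_add, hm_add, hW1]
          refine add_mem (add_mem (Pn_var hmul hTn (hO _) _ 1 (Nat.zero_le _))
            (Pn_var hmul hTn (hO _) _ 0 (Nat.zero_le _))) ?_
          have := Pn_var (z := z ω) hmul hTn (hO v) 0 2 (Nat.zero_le (WE l B ω 2))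
          rwa [hz2, mul_one] at this
        · rw [hz2, map_one]
          have := Pn_var (z := z ω) hmul hTn (hO 1) _ 2 (le_refl (WE l B ω 2))
          rwa [hz2, map_one, mul_one] at this
      have fin : ∀ g ∈ Pn (R' : Set (LP K)) (WE l B ω) (z ω) d, g * hm 0 (Φ ω)⁻¹ ∈ R' := by
        intro g hg
        unfold Pn at hg
        induction hg using AddSubmonoid.closure_induction with
        | mem g hg =>
          obtain ⟨r, hr, b, hb, rfl⟩ := hg
          rw [mul_assoc, hm_mul, add_zero, ← div_eq_mul_inv]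
          exact R'.mul_mem hr (Algebra.subset_adjoin (Or.inr ⟨ω, b, hb, rfl⟩))
        | zero => rw [zero_mul]; exact R'.zero_mem
        | add x y _ _ hx hy => rw [add_mul]; exact R'.add_mem hx hy
      have := fin _ key
      rwa [hm_mul, add_zero, ← div_eq_mul_inv] at this
  | algebraMap r => rw [AlgEquiv.commutes]; exact R'.algebraMap_mem r
  | add x y _ _ hx hy => rw [map_add]; exact R'.add_mem hx hy
  | mul x y _ _ hx hy => rw [map_mul]; exact R'.mul_mem hx hy

end Pool.Agent.Y236.H.EC2S
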